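/-
helper53, for helper21's proof of S13422 (MP_7b8095_gt), PART L: many lattices.
Definitions of the right-angled reflection group in `O^+(4,1)` with ten facets.
-/
import Pool.Agent.helper21.WB.Basic
import Pool.Agent.helper52.Cox.Root

set_option autoImplicit false
open Matrix MeasureTheory

namespace Pool.Agent.helper21.WB.L

/-- the normals of the ten facets: `0,1,2,3 ↦ -e_a`, `4,…,9 ↦ e_i + e_j + e_o` for
`{i,j} = 01, 02, 03, 12, 13, 23` -/
def nvT : Fin 10 → Fin 5 → ℤ :=
  ![![-1, 0, 0, 0, 0], ![0, -1, 0, 0, 0], ![0, 0, -1, 0, 0], ![0, 0, 0, -1, 0],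
    ![1, 1, 0, 0, 1], ![1, 0, 1, 0, 1], ![1, 0, 0, 1, 1],
    ![0, 1, 1, 0, 1], ![0, 1, 0, 1, 1], ![0, 0, 1, 1, 1]]

/-- integral Gram matrix of the normals -/
def gramT (a b : Fin 10) : ℤ :=
  nvT a 0 * nvT b 0 + nvT a 1 * nvT b 1 + nvT a 2 * nvT b 2 + nvT a 3 * nvT b 3
    - nvT a 4 * nvT b 4

/-- the normals as vectors of `ℝ^{4,1}` -/
noncomputable def nv (a : Fin 10) : I → ℝ :=
  Sum.elim (fun i : Fin 4 => ((nvT a i.castSucc : ℤ) : ℝ)) (fun _ => ((nvT a 4 : ℤ) : ℝ))

theorem bl_nv (a b : Fin 10) : bl (nv a) (nv b) = (gramT a b : ℝ) := by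
  rw [bl_apply, Fin.sum_univ_four]
  simp only [nv, o, Sum.elim_inl, Sum.elim_inr, gramT]
  push_cast
  rfl

theorem gramT_self (a : Fin 10) : gramT a a = 1 := by
  fin_cases a <;> decide

theorem gramT_ne (a b : Fin 10) (h : a ≠ b) : gramT a b = 0 ∨ gramT a b = -1 := by
  revert a b; decide

theorem gramT_symm (a b : Fin 10) : gramT a b = gramT b a := by
  revert a b; decide

/-- `bl (nv a) (lift y)` in coordinates -/
theorem bl_nv_lift (a : Fin 10) (y : X) : bl (nv a) (lift y) =
    (nvT a 0 : ℝ) * y 0 + (nvT a 1 : ℝ) * y 1 + (nvT a 2 : ℝ) * y 2 + (nvT a 3 : ℝ) * y 3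
      - (nvT a 4 : ℝ) * lift y o := by
  rw [bl_apply, Fin.sum_univ_four]
  simp only [nv, o, Sum.elim_inl, Sum.elim_inr, lift_inl]
  rfl

/-- the Coxeter matrix: `1` on the diagonal, `0` (no relation) if the Gram entry is `-1`,
`2` (commuting) if the Gram entry is `0` -/
def cmF (a b : Fin 10) : ℕ := if a = b then 1 else if gramT a b = 0 then 2 else 0

def cm : CoxeterMatrix (Fin 10) where
  M := Matrix.of cmF
  isSymm := by
    ext a b
    show cmF b a = cmF a b
    unfold cmF
    rw [gramT_symm b a]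
    by_cases h : a = b
    · subst h; rfl
    · rw [if_neg h, if_neg (Ne.symm h)]
  diagonal := by
    intro a
    show cmF a a = 1
    simp [cmF]
  off_diagonal := by
    intro a b h
    show cmF a b ≠ 1
    unfold cmF
    rw [if_neg h]
    split_ifs <;> decide

theorem cm_apply (a b : Fin 10) : cm a b = cmF a b := rfl

/-- the reflection `x ↦ x - 2 ⟨u,x⟩ u` (for `⟨u,u⟩ = 1`) as a matrix -/
noncomputable def reflM (u : I → ℝ) : Mat := 1 - (2 : ℝ) • Matrix.vecMulVec u (J *ᵥ u)

theorem reflM_mulVec (u v : I → ℝ) : reflM u *ᵥ v = v - (2 * bl u v) • u := by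
  unfold reflM
  rw [Matrix.sub_mulVec, Matrix.one_mulVec, Matrix.smul_mulVec, Matrix.vecMulVec_mulVec]
  congr 1
  ext i
  simp only [Pi.smul_apply, smul_eq_mul, bl]
  rw [show (J *ᵥ u) ⬝ᵥ v = u ⬝ᵥ (J *ᵥ v) by
    rw [Matrix.dotProduct_mulVec, ← Matrix.mulVec_transpose, J_transpose]]
  simp [MulOpposite.smul_eq_mul_unop]
  ring

theorem reflM_sq {u : I → ℝ} (hu : bl u u = 1) : reflM u * reflM u = 1 := by
  apply Matrix.ext_of_mulVec_single
  intro i
  rw [← Matrix.mulVec_mulVec, reflM_mulVec, reflM_mulVec, Matrix.one_mulVec, bl_sub_right,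
    bl_smul_right, hu]
  module

/-- the reflection as an element of `GL` -/
noncomputable def refl (u : I → ℝ) (hu : bl u u = 1) : GLI :=
  ⟨reflM u, reflM u, reflM_sq hu, reflM_sq hu⟩

theorem bl_nv_self (a : Fin 10) : bl (nv a) (nv a) = 1 := by
  rw [bl_nv, gramT_self]; norm_num

/-- the ten simple reflections -/
noncomputable def rf (a : Fin 10) : GLI := refl (nv a) (bl_nv_self a)

theorem rf_mulVec (a : Fin 10) (v : I → ℝ) : (rf a).val *ᵥ v = v - (2 * bl (nv a) v) • nv a :=
  reflM_mulVec _ _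

theorem GLI_ext {g h : GLI} (H : ∀ v, g.val *ᵥ v = h.val *ᵥ v) : g = h := by
  apply Units.ext
  apply Matrix.ext_of_mulVec_single
  intro i
  exact H _

theorem rf_sq (a : Fin 10) : rf a * rf a = 1 := by
  apply Units.ext
  exact reflM_sq (bl_nv_self a)

theorem rf_comm {a b : Fin 10} (h : gramT a b = 0) : rf a * rf b = rf b * rf a := by
  apply GLI_ext
  intro v
  have h1 : bl (nv a) (nv b) = 0 := by rw [bl_nv, h]; norm_num
  have h2 : bl (nv b) (nv a) = 0 := by rw [bl_comm, h1]
  rw [Units.val_mul, Units.val_mul, ← Matrix.mulVec_mulVec, ← Matrix.mulVec_mulVec,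
    rf_mulVec, rf_mulVec, rf_mulVec, rf_mulVec, bl_sub_right, bl_smul_right, bl_sub_right,
    bl_smul_right, h1, h2]
  module

theorem rf_liftable : cm.IsLiftable rf := by
  intro a b
  rw [cm_apply]
  unfold cmF
  split_ifs with h1 h2
  · subst h1; rw [rf_sq, one_pow]
  · rw [pow_two, mul_assoc, ← mul_assoc (rf b), ← rf_comm h2, mul_assoc (rf a), rf_sq, mul_one,
      rf_sq]
  · rw [pow_zero]

/-- the abstract right-angled Coxeter group -/
abbrev CW : Type := cm.Group

/-- its Coxeter system -/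
noncomputable abbrev cs : CoxeterSystem cm CW := cm.toCoxeterSystem

/-- the geometric representation in `O^+(4,1)` -/
noncomputable def rep : CW →* GLI := cs.lift ⟨rf, rf_liftable⟩

theorem rep_simple (a : Fin 10) : rep (cs.simple a) = rf a :=
  cs.lift_apply_simple rf_liftable a

/-- the reflection group -/
noncomputable def Wg : Subgroup GLI := rep.range

/-- the fundamental polytope -/
def P : Set X := {y | ∀ a, bl (nv a) (lift y) ≤ 0}

end Pool.Agent.helper21.WB.L
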