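/-
helper53, PART L4: many subgroups of the right-angled Coxeter group.
-/
import Pool.Agent.helper53.WBL.Defs

set_option autoImplicit false
open Matrix MeasureTheory

namespace Pool.Agent.helper21.WB.L

/-- the simple reflections through the vertex `(1,1,0,1)` -/
def K3 : Finset (Fin 10) := {2, 4, 6, 8}

namespace L4

variable {m : ℕ}

/-- the points -/
abbrev Om (m : ℕ) : Type := Fin m × Fin 8

def up : Fin 3 → Fin 8 := ![5, 6, 7]
def dn : Fin 3 → Fin 8 := ![2, 3, 4]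

def eU (q : Fin m × Fin 3) : Om m := (q.1, up q.2)
def eD (q : Fin m × Fin 3) : Om m := (q.1, dn q.2)

theorem up_inj : Function.Injective up := by decide
theorem dn_inj : Function.Injective dn := by decide

theorem eU_inj : Function.Injective (eU (m := m)) := by
  intro p q h
  have h1 : (eU p).1 = (eU q).1 := by rw [h]
  have h2 : (eU p).2 = (eU q).2 := by rw [h]
  exact Prod.ext h1 (up_inj h2)

/-- the involution `σ` -/
def sgF (π : Equiv.Perm (Fin m × Fin 3)) (p : Om m) : Om m :=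
  match p.2 with
  | 0 => if p.1.val = 0 then p else (⟨p.1.val - 1, by have := p.1.isLt; omega⟩, 1)
  | 1 => if h : p.1.val + 1 < m then (⟨p.1.val + 1, h⟩, 0) else p
  | 2 => eU (π (p.1, 0))
  | 3 => eU (π (p.1, 1))
  | 4 => eU (π (p.1, 2))
  | 5 => eD (π.symm (p.1, 0))
  | 6 => eD (π.symm (p.1, 1))
  | 7 => eD (π.symm (p.1, 2))

theorem sgF_eD (π : Equiv.Perm (Fin m × Fin 3)) (q : Fin m × Fin 3) : sgF π (eD q) = eU (π q) := by
  obtain ⟨i, k⟩ := q
  fin_cases k <;> rfl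

theorem sgF_eU (π : Equiv.Perm (Fin m × Fin 3)) (q : Fin m × Fin 3) :
    sgF π (eU q) = eD (π.symm q) := by
  obtain ⟨i, k⟩ := q
  fin_cases k <;> rfl

theorem sgF_zero (π : Equiv.Perm (Fin m × Fin 3)) (i : Fin m) : sgF π (i, 0) =
    if i.val = 0 then (i, 0) else (⟨i.val - 1, by have := i.isLt; omega⟩, 1) := rfl

theorem sgF_one (π : Equiv.Perm (Fin m × Fin 3)) (i : Fin m) : sgF π (i, 1) =
    if h : i.val + 1 < m then (⟨i.val + 1, h⟩, 0) else (i, 1) := rfl

theorem cases8 (p : Om m) : p.2 = 0 ∨ p.2 = 1 ∨ (∃ q, p = eD q) ∨ (∃ q, p = eU q) := by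
  obtain ⟨i, k⟩ := p
  fin_cases k
  · left; rfl
  · right; left; rfl
  · right; right; left; exact ⟨(i, 0), rfl⟩
  · right; right; left; exact ⟨(i, 1), rfl⟩
  · right; right; left; exact ⟨(i, 2), rfl⟩
  · right; right; right; exact ⟨(i, 0), rfl⟩
  · right; right; right; exact ⟨(i, 1), rfl⟩
  · right; right; right; exact ⟨(i, 2), rfl⟩

theorem sgF_sgF (π : Equiv.Perm (Fin m × Fin 3)) (p : Om m) : sgF π (sgF π p) = p := by
  rcases cases8 p with h | h | ⟨q, h⟩ | ⟨q, h⟩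
  · obtain ⟨i, k⟩ := p
    simp only at h
    subst h
    rw [sgF_zero]
    split_ifs with h0
    · rw [sgF_zero, if_pos h0]
    · rw [sgF_one]
      have : (i.val - 1) + 1 < m := by have := i.isLt; omega
      rw [dif_pos this]
      ext
      · simp only; omega
      · rfl
  · obtain ⟨i, k⟩ := p
    simp only at h
    subst h
    rw [sgF_one]
    split_ifs with h0
    · rw [sgF_zero, if_neg (by simp)]
      rfl
    · rw [sgF_one, dif_neg h0]
  · rw [h, sgF_eD, sgF_eU, Equiv.symm_apply_apply]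
  · rw [h, sgF_eU, sgF_eD, Equiv.apply_symm_apply]

def sg (π : Equiv.Perm (Fin m × Fin 3)) : Equiv.Perm (Om m) :=
  ⟨sgF π, sgF π, sgF_sgF π, sgF_sgF π⟩

def tT : Fin 3 → Fin 8 → Fin 8 :=
  ![![1, 0, 3, 2, 5, 4, 7, 6], ![2, 3, 0, 1, 6, 7, 4, 5], ![4, 5, 6, 7, 0, 1, 2, 3]]

theorem tT_tT (j : Fin 3) (x : Fin 8) : tT j (tT j x) = x := by revert j x; decide
theorem tT_comm (j k : Fin 3) (x : Fin 8) : tT j (tT k x) = tT k (tT j x) := by
  revert j k x; decide

def ta (m : ℕ) (j : Fin 3) : Equiv.Perm (Om m) :=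
  ⟨fun p => (p.1, tT j p.2), fun p => (p.1, tT j p.2),
    fun p => by simp [tT_tT], fun p => by simp [tT_tT]⟩

/-- the five permutations -/
def F5 (π : Equiv.Perm (Fin m × Fin 3)) : Fin 5 → Equiv.Perm (Om m) :=
  ![1, ta m 0, ta m 1, ta m 2, sg π]

/-- the classes of the ten generators -/
def cl : Fin 10 → Fin 5 := ![1, 2, 0, 0, 4, 0, 0, 0, 0, 3]

def okP (x y : Fin 5) : Bool := !((x == 4 && (y == 1 || y == 2 || y == 3)) ||
  (y == 4 && (x == 1 || x == 2 || x == 3)))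

theorem okP_of_gram : ∀ a b : Fin 10, gramT a b = 0 → okP (cl a) (cl b) = true := by decide

theorem F5_sq (π : Equiv.Perm (Fin m × Fin 3)) (x : Fin 5) : F5 π x * F5 π x = 1 := by
  fin_cases x
  · rfl
  · ext1 p; show (p.1, tT 0 (tT 0 p.2)) = p; rw [tT_tT]
  · ext1 p; show (p.1, tT 1 (tT 1 p.2)) = p; rw [tT_tT]
  · ext1 p; show (p.1, tT 2 (tT 2 p.2)) = p; rw [tT_tT]
  · ext1 p; exact sgF_sgF π p

theorem F5_comm (π : Equiv.Perm (Fin m × Fin 3)) (x y : Fin 5) (h : okP x y = true) :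
    F5 π x * F5 π y = F5 π y * F5 π x := by
  have ht : ∀ j k, ta m j * ta m k = ta m k * ta m j := by
    intro j k
    ext1 p
    show (p.1, tT j (tT k p.2)) = (p.1, tT k (tT j p.2))
    rw [tT_comm]
  fin_cases x <;> fin_cases y <;> first
    | rfl
    | exact ht _ _
    | exact absurd h (by decide)

def fgen (π : Equiv.Perm (Fin m × Fin 3)) (a : Fin 10) : Equiv.Perm (Om m) := F5 π (cl a)

theorem fgen_liftable (π : Equiv.Perm (Fin m × Fin 3)) : cm.IsLiftable (fgen π) := by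
  intro a b
  rw [cm_apply]
  unfold cmF
  split_ifs with h1 h2
  · subst h1; rw [pow_one]; exact F5_sq _ _
  · have hc : fgen π a * fgen π b = fgen π b * fgen π a := F5_comm π _ _ (okP_of_gram a b h2)
    have ha : fgen π a * fgen π a = 1 := F5_sq _ _
    have hb : fgen π b * fgen π b = 1 := F5_sq _ _
    rw [pow_two, mul_assoc, ← mul_assoc (fgen π b), ← hc, mul_assoc (fgen π a), hb, mul_one, ha]
  · rw [pow_zero]

/-- the action -/
noncomputable def ph (π : Equiv.Perm (Fin m × Fin 3)) : CW →* Equiv.Perm (Om m) :=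
  cs.lift ⟨fgen π, fgen_liftable π⟩

theorem ph_simple (π : Equiv.Perm (Fin m × Fin 3)) (a : Fin 10) :
    ph π (cs.simple a) = fgen π a := cs.lift_apply_simple (fgen_liftable π) a

/-- base point -/
def bp (hm : 0 < m) : Om m := (⟨0, hm⟩, 0)

/-- the subgroup -/
noncomputable def Hs (hm : 0 < m) (π : Equiv.Perm (Fin m × Fin 3)) : Subgroup CW :=
  (MulAction.stabilizer (Equiv.Perm (Om m)) (bp hm)).comap (ph π)

theorem mem_Hs (hm : 0 < m) (π : Equiv.Perm (Fin m × Fin 3)) (w : CW) :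
    w ∈ Hs hm π ↔ ph π w (bp hm) = bp hm := Iff.rfl

/-- the words moving `(i,0)` to `(i,k)` -/
noncomputable def uw : Fin 8 → CW :=
  ![1, cs.simple 0, cs.simple 1, cs.simple 1 * cs.simple 0, cs.simple 9,
    cs.simple 9 * cs.simple 0, cs.simple 9 * cs.simple 1,
    cs.simple 9 * (cs.simple 1 * cs.simple 0)]

theorem ph_uw (π : Equiv.Perm (Fin m × Fin 3)) (i : Fin m) (k : Fin 8) :
    ph π (uw k) (i, 0) = (i, k) := by
  have h0 : ∀ x, ph π (cs.simple 0) (i, x) = (i, tT 0 x) := fun x => by rw [ph_simple]; rfl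
  have h1 : ∀ x, ph π (cs.simple 1) (i, x) = (i, tT 1 x) := fun x => by rw [ph_simple]; rfl
  have h9 : ∀ x, ph π (cs.simple 9) (i, x) = (i, tT 2 x) := fun x => by rw [ph_simple]; rfl
  fin_cases k
  · show ph π 1 (i, 0) = _; rw [map_one]; rfl
  · show ph π (cs.simple 0) (i, 0) = _; rw [h0]; rfl
  · show ph π (cs.simple 1) (i, 0) = _; rw [h1]; rfl
  · show ph π (cs.simple 1 * cs.simple 0) (i, 0) = _
    rw [map_mul, Equiv.Perm.mul_apply, h0, h1]; rfl
  · show ph π (cs.simple 9) (i, 0) = _; rw [h9]; rfl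
  · show ph π (cs.simple 9 * cs.simple 0) (i, 0) = _
    rw [map_mul, Equiv.Perm.mul_apply, h0, h9]; rfl
  · show ph π (cs.simple 9 * cs.simple 1) (i, 0) = _
    rw [map_mul, Equiv.Perm.mul_apply, h1, h9]; rfl
  · show ph π (cs.simple 9 * (cs.simple 1 * cs.simple 0)) (i, 0) = _
    rw [map_mul, map_mul, Equiv.Perm.mul_apply, Equiv.Perm.mul_apply, h0, h1, h9]; rfl

theorem ph_path (hm : 0 < m) (π : Equiv.Perm (Fin m × Fin 3)) (i : ℕ) (hi : i < m) :
    ph π ((cs.simple 4 * cs.simple 0) ^ i) (bp hm) = (⟨i, hi⟩, 0) := by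
  induction i with
  | zero => rw [pow_zero, map_one]; rfl
  | succ i ih =>
    rw [pow_succ', map_mul, Equiv.Perm.mul_apply, ih (by omega), map_mul, Equiv.Perm.mul_apply,
      ph_simple, ph_simple]
    show sgF π (⟨i, _⟩, tT 0 0) = _
    show sgF π (⟨i, _⟩, 1) = _
    rw [sgF_one, dif_pos hi]

/-- the word moving the base point to `x` -/
noncomputable def wd (x : Om m) : CW := uw x.2 * (cs.simple 4 * cs.simple 0) ^ x.1.val

theorem ph_wd (hm : 0 < m) (π : Equiv.Perm (Fin m × Fin 3)) (x : Om m) :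
    ph π (wd x) (bp hm) = x := by
  unfold wd
  rw [map_mul, Equiv.Perm.mul_apply, ph_path hm π x.1.val x.1.isLt, ph_uw]

theorem Hs_index (hm : 0 < m) (π : Equiv.Perm (Fin m × Fin 3)) : (Hs hm π).index = 8 * m := by
  let _ : MulAction CW (Om m) := MulAction.compHom (Om m) (ph π)
  have h1 : Hs hm π = MulAction.stabilizer CW (bp hm) := by
    ext w
    exact Iff.rfl
  rw [h1, MulAction.index_stabilizer]
  have h2 : MulAction.orbit CW (bp hm) = Set.univ := by
    ext x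
    refine ⟨fun _ => trivial, fun _ => ⟨wd x, ph_wd hm π x⟩⟩
  rw [h2, Set.ncard_univ, Nat.card_eq_fintype_card, Fintype.card_prod, Fintype.card_fin,
    Fintype.card_fin, mul_comm]

theorem Hs_inj (hm : 0 < m) : Function.Injective (Hs (m := m) hm) := by
  intro π π' h
  have key : ∀ x, sgF π x = sgF π' x := by
    intro x
    have h4 : ∀ ϖ : Equiv.Perm (Fin m × Fin 3), ∀ y, ph ϖ (cs.simple 4) y = sgF ϖ y := by
      intro ϖ y; rw [ph_simple]; rfl
    have h1 : (wd (sgF π x))⁻¹ * (cs.simple 4 * wd x) ∈ Hs hm π := by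
      rw [mem_Hs, map_mul, Equiv.Perm.mul_apply, map_mul, Equiv.Perm.mul_apply, ph_wd, h4,
        map_inv, Equiv.Perm.inv_eq_iff_eq, ph_wd]
    rw [h, mem_Hs, map_mul, Equiv.Perm.mul_apply, map_mul, Equiv.Perm.mul_apply, ph_wd, h4,
      map_inv, Equiv.Perm.inv_eq_iff_eq, ph_wd] at h1
    exact h1.symm
  ext1 q
  have := key (eD q)
  rw [sgF_eD, sgF_eD] at this
  exact eU_inj this

theorem K3_mem (hm : 0 < m) (π : Equiv.Perm (Fin m × Fin 3)) (a : Fin 10) (ha : a ∈ K3) :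
    cs.simple a ∈ Hs hm π := by
  rw [mem_Hs, ph_simple]
  have : a = 2 ∨ a = 4 ∨ a = 6 ∨ a = 8 := by
    revert a; decide
  rcases this with rfl | rfl | rfl | rfl
  · rfl
  · show sgF π (⟨0, hm⟩, 0) = _
    rw [sgF_zero, if_pos rfl]; rfl
  · rfl
  · rfl

end L4

theorem family (m : ℕ) (hm : 0 < m) : ∃ H : Equiv.Perm (Fin m × Fin 3) → Subgroup CW,
    Function.Injective H ∧ ∀ π, (H π).index = 8 * m ∧ ∀ a ∈ K3, cs.simple a ∈ H π :=
  ⟨L4.Hs hm, L4.Hs_inj hm, fun π => ⟨L4.Hs_index hm π, L4.K3_mem hm π⟩⟩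

end Pool.Agent.helper21.WB.L
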